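import Pool.Agent.Lib.MP_debb99_co.UpMain

set_option autoImplicit false

namespace Pool.Agent.Results.MP_debb99_co.LogSquaredUpper

/-- Bandwidth is at most C (log n)^2 times the local density, for every graph on n vertices. -/
theorem result :
    ∃ C : ℝ, ∀ (n : ℕ) (G : SimpleGraph (Fin n)) (D : ℝ),
      (∀ (v : Fin n) (r : ℕ), 1 ≤ r →
        ((({w | G.edist v w ≤ (r : ℕ∞)} : Set (Fin n)).ncard : ℕ) : ℝ) ≤ 2 * (r : ℝ) * D) →
      ∃ π : Fin n ≃ Fin n, ∀ u v : Fin n, G.Adj u v →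
        |(((π u : Fin n) : ℕ) : ℝ) - (((π v : Fin n) : ℕ) : ℝ)| ≤
          C * Real.log (n : ℝ) ^ 2 * D :=
  ⟨20000000, Pool.Agent.Lib.MP_debb99_co.Up.main⟩

end Pool.Agent.Results.MP_debb99_co.LogSquaredUpper
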